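import Mathlib

namespace Pool.Agent.Results.MP_acde3d_al.Recover

/-- the generalized non-coprime graph -/
def Gam {G : Type} [Group G] (H : Subgroup G) : SimpleGraph {x : G // x ≠ 1} where
  Adj a b := a ≠ b ∧ Nat.gcd (orderOf a.1) (orderOf b.1) ≠ 1 ∧ (a.1 ∈ H ∨ b.1 ∈ H)
  symm := ⟨fun a b h => ⟨h.1.symm, by rw [Nat.gcd_comm]; exact h.2.1, h.2.2.symm⟩⟩
  loopless := ⟨fun a h => h.1 rfl⟩

variable {G G' : Type} [Group G] [Group G'] [Finite G] [Finite G']

theorem adj_iff (H : Subgroup G) (a b : {x : G // x ≠ 1}) : (Gam H).Adj a b ↔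
    a ≠ b ∧ Nat.gcd (orderOf a.1) (orderOf b.1) ≠ 1 ∧ (a.1 ∈ H ∨ b.1 ∈ H) := Iff.rfl

theorem inv_adj (H : Subgroup G) (v : {x : G // x ≠ 1}) (hv : v.1 ∈ H) (h2 : orderOf v.1 ≠ 2) :
    (Gam H).Adj v ⟨v.1⁻¹, inv_ne_one.2 v.2⟩ := by
  refine ⟨fun h => h2 ?_, by simpa using v.2, Or.inl hv⟩
  have h1 : v.1 = v.1⁻¹ := congrArg Subtype.val h
  refine orderOf_eq_prime ?_ v.2
  rw [pow_two]
  exact mul_eq_one_iff_eq_inv.2 h1

theorem mul_adj (H : Subgroup G) (v y : {x : G // x ≠ 1}) (hv : v.1 ∈ H) (h2 : orderOf v.1 = 2)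
    (hc : Commute v.1 y.1) (hco : Nat.gcd (orderOf v.1) (orderOf y.1) = 1) :
    ∃ h : v.1 * y.1 ≠ 1, (Gam H).Adj v ⟨v.1 * y.1, h⟩ := by
  have ho := hc.orderOf_mul_eq_mul_orderOf_of_coprime hco
  refine ⟨fun h => ?_, fun h => ?_, ?_, Or.inl hv⟩
  · rw [h, orderOf_one, h2] at ho
    omega
  · exact y.2 (left_eq_mul.1 (congrArg Subtype.val h))
  · show Nat.gcd _ (orderOf (v.1 * y.1)) ≠ 1
    rw [ho, Nat.gcd_mul_right_right, h2]
    norm_num

theorem conj_adj (H : Subgroup G) (v : {x : G // x ≠ 1}) (hv : v.1 ∈ H) (g : G)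
    (hc : ¬ Commute v.1 g) : ∃ h : g * v.1 * g⁻¹ ≠ 1, (Gam H).Adj v ⟨_, h⟩ := by
  refine ⟨by simpa using v.2, fun h => hc ?_, ?_, Or.inl hv⟩
  · have h1 : v.1 = g * v.1 * g⁻¹ := congrArg Subtype.val h
    exact eq_mul_inv_iff_mul_eq.1 h1
  · have : orderOf (g * v.1 * g⁻¹) = orderOf v.1 := (MulAut.conj g).orderOf_eq v.1
    simpa [this] using v.2

theorem lemB (H : Subgroup G) (v y : {x : G // x ≠ 1}) (hv : v.1 ∈ H) (hne : v ≠ y)
    (hna : ¬ (Gam H).Adj v y) (ht : ∀ a, (Gam H).Adj v a ↔ (Gam H).Adj y a) : False := by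
  have hco : Nat.gcd (orderOf v.1) (orderOf y.1) = 1 := by
    by_contra h
    exact hna ⟨hne, h, Or.inl hv⟩
  have h2 : orderOf v.1 = 2 := by
    by_contra h
    have := ((ht _).1 (inv_adj H v hv h)).2.1
    simp only [orderOf_inv] at this
    exact this (by rw [Nat.gcd_comm, hco])
  have hy : y.1 ∉ H := by
    intro h
    have := ((ht _).2 (inv_adj H y h (by
      intro h3
      rw [h2, h3] at hco
      norm_num at hco))).2.1
    simp only [orderOf_inv] at this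
    exact this hco
  have hc : Commute v.1 y.1 := by
    by_contra h
    obtain ⟨h1, h3⟩ := conj_adj H v hv y.1 h
    have h4 := ((ht _).1 h3).2.1
    have : orderOf (y.1 * v.1 * y.1⁻¹) = orderOf v.1 := (MulAut.conj y.1).orderOf_eq v.1
    simp only [this] at h4
    exact h4 (by rw [Nat.gcd_comm, hco])
  obtain ⟨h1, h3⟩ := mul_adj H v y hv h2 hc hco
  have h4 := ((ht _).1 h3).2.2.resolve_left hy
  exact hy ((H.mul_mem_cancel_left hv).1 h4)

theorem lemA (H : Subgroup G) (v x : {x : G // x ≠ 1}) (hv : v.1 ∉ H) (hx : (Gam H).Adj v x) :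
    ∃ t : {x : G // x ≠ 1}, t ≠ v ∧ t.1 ∉ H ∧ orderOf t.1 = orderOf v.1 := by
  by_cases h2 : orderOf v.1 = 2
  swap
  · refine ⟨⟨v.1⁻¹, inv_ne_one.2 v.2⟩, fun h => h2 ?_, by simpa using hv, orderOf_inv _⟩
    have h1 : v.1⁻¹ = v.1 := congrArg Subtype.val h
    refine orderOf_eq_prime ?_ v.2
    rw [pow_two]
    exact mul_eq_one_iff_eq_inv.2 h1.symm
  have hxH := hx.2.2.resolve_left hv
  have he : 2 ∣ orderOf x.1 := by
    have := hx.2.1
    rw [h2] at this
    by_contra h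
    exact this ((Nat.Prime.coprime_iff_not_dvd Nat.prime_two).2 h)
  let u := x.1 ^ (orderOf x.1 / 2)
  have hu : orderOf u = 2 := orderOf_pow_orderOf_div (orderOf_pos x.1).ne' he
  have huH : u ∈ H := pow_mem hxH _
  by_cases hc : Commute v.1 u
  · have h1 : u * v.1 ≠ 1 := fun h => hv (by
      rw [eq_inv_of_mul_eq_one_right h]; exact inv_mem huH)
    refine ⟨⟨u * v.1, h1⟩, fun h => ?_, fun h => hv ((H.mul_mem_cancel_left huH).1 h), ?_⟩
    · have : u = 1 := mul_eq_right.1 (congrArg Subtype.val h)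
      rw [this, orderOf_one] at hu
      omega
    · rw [h2]
      refine orderOf_eq_prime ?_ h1
      rw [hc.symm.mul_pow]
      nth_rewrite 1 [← hu]
      rw [← h2, pow_orderOf_eq_one, pow_orderOf_eq_one, one_mul]
  · refine ⟨⟨u * v.1 * u⁻¹, by simpa using v.2⟩, fun h => hc ?_, fun h => hv ?_,
      (MulAut.conj u).orderOf_eq v.1⟩
    · have h1 : u * v.1 * u⁻¹ = v.1 := congrArg Subtype.val h
      exact (mul_inv_eq_iff_eq_mul.1 h1).symm
    · exact (H.mul_mem_cancel_left huH).1 ((H.mul_mem_cancel_right (inv_mem huH)).1 h)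

theorem half (H : Subgroup G) (H' : Subgroup G') (hH' : H' ≠ ⊥) (φ : Gam H ≃g Gam H')
    (v : {x : G // x ≠ 1}) (hv : v.1 ∈ H) : (φ v).1 ∈ H' := by
  by_contra hv'
  by_cases hx : ∃ x, (Gam H).Adj v x
  · obtain ⟨x, hx⟩ := hx
    obtain ⟨t, ht1, ht2, ht3⟩ := lemA H' (φ v) (φ x) hv' (φ.map_adj_iff.2 hx)
    obtain ⟨y, rfl⟩ := φ.surjective t
    refine lemB H v y hv (fun h => ht1 (by rw [h])) (fun h => ?_) fun a => ?_
    · rcases (φ.map_adj_iff.2 h).2.2 with h | h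
      · exact hv' h
      · exact ht2 h
    · rw [← φ.map_adj_iff, ← φ.map_adj_iff (v := y), adj_iff, adj_iff]
      have e : orderOf (φ y).1 = orderOf (φ v).1 := ht3
      rw [e]
      constructor
      · rintro ⟨_, h2, h3⟩
        have h4 := h3.resolve_left hv'
        exact ⟨fun h => ht2 (by rw [← h] at h4; exact h4), h2, Or.inr h4⟩
      · rintro ⟨_, h2, h3⟩
        have h4 := h3.resolve_left ht2
        exact ⟨fun h => hv' (by rw [← h] at h4; exact h4), h2, Or.inr h4⟩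
  · push Not at hx
    have h2 : orderOf v.1 = 2 := by
      by_contra h
      exact hx _ (inv_adj H v hv h)
    have hall : ∀ y, y = v := by
      intro y
      by_contra hy
      have hco : Nat.gcd (orderOf v.1) (orderOf y.1) = 1 := by
        by_contra h
        exact hx y ⟨Ne.symm hy, h, Or.inl hv⟩
      have hc : Commute v.1 y.1 := by
        by_contra h
        obtain ⟨h1, h3⟩ := conj_adj H v hv y.1 h
        exact hx _ h3
      obtain ⟨h1, h3⟩ := mul_adj H v y hv h2 hc hco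
      exact hx _ h3
    obtain ⟨⟨z, hz⟩, hz1⟩ := Subgroup.ne_bot_iff_exists_ne_one.1 hH'
    obtain ⟨y, hy⟩ := φ.surjective ⟨z, fun h => hz1 (Subtype.ext h)⟩
    apply hv'
    rw [← hall y]
    have : (φ y).1 = z := congrArg Subtype.val hy
    rw [this]
    exact hz

theorem result (G G' : Type) [Group G] [Group G'] [Finite G] [Finite G'] (H : Subgroup G)
    (H' : Subgroup G') (hH : H ≠ ⊥) (hH' : H' ≠ ⊥) (φ : Gam H ≃g Gam H') :
    φ '' {v | v.1 ∈ H} = {w | w.1 ∈ H'} := by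
  ext w
  constructor
  · rintro ⟨v, hv, rfl⟩
    exact half H H' hH' φ v hv
  · intro hw
    exact ⟨φ.symm w, half H' H hH φ.symm w hw, φ.apply_symm_apply w⟩

end Pool.Agent.Results.MP_acde3d_al.Recover
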